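import Pool.Agent.OPH.StmtsB

/-! Row DKL of the OPH plan: moments of the divisor function with harmonic weights. -/

namespace Pool.Agent.OPH.H59

open Finset Pool.Agent.OPH
open scoped Pointwise

theorem card_divisors_mul_le (a b : ℕ) :
    (a * b).divisors.card ≤ a.divisors.card * b.divisors.card := by
  rw [Nat.divisors_mul]
  exact Finset.card_mul_le

theorem card_antidiag (d : ℕ) : d.divisorsAntidiagonal.card = d.divisors.card := by
  rw [← Nat.map_div_right_divisors, Finset.card_map]

theorem dkl : DklStmt := by
  intro K X
  induction K with
  | zero => simp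
  | succ K ih =>
    set g : ℕ → ℝ := fun d => (d.divisors.card : ℝ) ^ K / d with hgdef
    have hg : ∀ d, 0 ≤ g d := fun d => by positivity
    have h1 : ∑ d ∈ Icc 1 X, (d.divisors.card : ℝ) ^ (K + 1) / d ≤ (∑ d ∈ Icc 1 X, g d) ^ 2 := by
      calc ∑ d ∈ Icc 1 X, (d.divisors.card : ℝ) ^ (K + 1) / d
          ≤ ∑ d ∈ Icc 1 X, ∑ p ∈ (Icc 1 X ×ˢ Icc 1 X).filter (fun p => p.1 * p.2 = d),
              g p.1 * g p.2 := by
            apply Finset.sum_le_sum
            intro d hd
            have hset : (Icc 1 X ×ˢ Icc 1 X).filter (fun p => p.1 * p.2 = d)
                = d.divisorsAntidiagonal := by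
              rw [mem_Icc] at hd
              ext ⟨a, b⟩
              simp only [mem_filter, mem_product, mem_Icc, Nat.mem_divisorsAntidiagonal]
              constructor
              · rintro ⟨-, h⟩
                exact ⟨h, by omega⟩
              · rintro ⟨h, -⟩
                have ha : 0 < a := by
                  rcases Nat.eq_zero_or_pos a with h0 | h0
                  · rw [h0, zero_mul] at h
                    omega
                  · exact h0
                have hb : 0 < b := by
                  rcases Nat.eq_zero_or_pos b with h0 | h0
                  · rw [h0, mul_zero] at h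
                    omega
                  · exact h0
                have h2 : a ≤ a * b := Nat.le_mul_of_pos_right a hb
                have h3 : b ≤ a * b := Nat.le_mul_of_pos_left b ha
                exact ⟨⟨⟨ha, by omega⟩, ⟨hb, by omega⟩⟩, h⟩
            rw [hset]
            have hc : (d.divisors.card : ℝ) ^ (K + 1) / d
                = ∑ _p ∈ d.divisorsAntidiagonal, (d.divisors.card : ℝ) ^ K / d := by
              rw [Finset.sum_const, nsmul_eq_mul, card_antidiag]
              ring
            rw [hc]
            apply Finset.sum_le_sum
            intro p hp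
            have hpd : p.1 * p.2 = d := (Nat.mem_divisorsAntidiagonal.mp hp).1
            have hle : (d.divisors.card : ℝ) ≤ (p.1.divisors.card : ℝ) * p.2.divisors.card := by
              rw [← hpd]
              exact_mod_cast card_divisors_mul_le p.1 p.2
            have hpow : (d.divisors.card : ℝ) ^ K
                ≤ ((p.1.divisors.card : ℝ) * p.2.divisors.card) ^ K :=
              pow_le_pow_left₀ (by positivity) hle K
            have hprod : g p.1 * g p.2
                = ((p.1.divisors.card : ℝ) * p.2.divisors.card) ^ K / d := by
              rw [← hpd, hgdef]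
              push_cast
              rw [div_mul_div_comm, mul_pow]
            rw [hprod]
            exact div_le_div_of_nonneg_right hpow (by positivity)
        _ = ∑ p ∈ (Icc 1 X ×ˢ Icc 1 X).filter (fun p => p.1 * p.2 ∈ Icc 1 X),
              g p.1 * g p.2 := by
            rw [← Finset.sum_fiberwise_of_maps_to (s := (Icc 1 X ×ˢ Icc 1 X).filter
              (fun p => p.1 * p.2 ∈ Icc 1 X)) (t := Icc 1 X) (g := fun p => p.1 * p.2)
              (fun p hp => (mem_filter.mp hp).2)]
            apply Finset.sum_congr rfl
            intro d hd
            apply Finset.sum_congr _ (fun _ _ => rfl)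
            ext p
            simp only [mem_filter]
            constructor
            · rintro ⟨h, h'⟩
              exact ⟨⟨h, h' ▸ hd⟩, h'⟩
            · rintro ⟨⟨h, -⟩, h'⟩
              exact ⟨h, h'⟩
        _ ≤ ∑ p ∈ Icc 1 X ×ˢ Icc 1 X, g p.1 * g p.2 := by
            apply Finset.sum_le_sum_of_subset_of_nonneg (Finset.filter_subset _ _)
            intro p _ _
            exact mul_nonneg (hg _) (hg _)
        _ = (∑ d ∈ Icc 1 X, g d) ^ 2 := by
            rw [sq, Finset.sum_mul_sum, Finset.sum_product]
    refine h1.trans ?_
    rw [pow_succ 2 K, pow_mul]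
    exact pow_le_pow_left₀ (Finset.sum_nonneg (fun d _ => hg d)) ih 2


end Pool.Agent.OPH.H59
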